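import Mathlib

set_option autoImplicit false

open Matrix Finset

namespace VI

theorem design_hull_compact (K : Set (Fin 3 → ℝ)) (hK : IsCompact K) :
    IsCompact (convexHull ℝ {M : Matrix (Fin 3) (Fin 3) ℝ | ∃ x ∈ K, M = vecMulVec x x}) := by
  classical
  let F : (Fin 10 → ℝ) × (Fin 10 → Fin 3 → ℝ) → Matrix (Fin 3) (Fin 3) ℝ :=
    fun p => ∑ i, p.1 i • vecMulVec (p.2 i) (p.2 i)
  have hF : Continuous F := by
    apply continuous_finsetSum
    intro i _
    have h1 : Continuous (fun a : (Fin 10 → ℝ) × (Fin 10 → Fin 3 → ℝ) => a.1 i) :=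
      (continuous_apply i).comp continuous_fst
    have h2 : Continuous (fun a : (Fin 10 → ℝ) × (Fin 10 → Fin 3 → ℝ) => vecMulVec (a.2 i) (a.2 i)) :=
      Continuous.matrix_vecMulVec ((continuous_apply i).comp continuous_snd)
        ((continuous_apply i).comp continuous_snd)
    exact h1.smul h2
  have hcomp : IsCompact (stdSimplex ℝ (Fin 10) ×ˢ (Set.univ.pi fun _ : Fin 10 => K)) :=
    (isCompact_stdSimplex ℝ (Fin 10)).prod (isCompact_univ_pi fun _ => hK)
  have himg : convexHull ℝ {M : Matrix (Fin 3) (Fin 3) ℝ | ∃ x ∈ K, M = vecMulVec x x} =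
      F '' (stdSimplex ℝ (Fin 10) ×ˢ (Set.univ.pi fun _ : Fin 10 => K)) := by
    apply Set.Subset.antisymm
    · intro M hM
      obtain ⟨ι, hι, z, w, hz, hai, hw0, hw1, hsum⟩ := eq_pos_convex_span_of_mem_convexHull hM
      have hcard : Fintype.card ι ≤ 10 := by
        have h1 := hai.card_le_finrank_succ
        have h2 := Submodule.finrank_le (vectorSpan ℝ (Set.range z))
        have h3 : Module.finrank ℝ (Matrix (Fin 3) (Fin 3) ℝ) = 9 := by
          rw [Module.finrank_matrix]
          simp
        omega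
      have hz' : ∀ i, ∃ x ∈ K, z i = vecMulVec x x := fun i => hz (Set.mem_range_self i)
      choose x hxK hxz using hz'
      let e : ι → Fin 10 := fun i => Fin.castLE hcard (Fintype.equivFin ι i)
      have he : Function.Injective e :=
        (Fin.castLE_injective hcard).comp (Fintype.equivFin ι).injective
      have hne : Nonempty ι := by
        by_contra hcon
        rw [not_nonempty_iff] at hcon
        rw [Finset.univ_eq_empty, Finset.sum_empty] at hw1
        exact zero_ne_one hw1
      obtain ⟨i0⟩ := hne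
      refine ⟨(Function.extend e w (fun _ => 0), Function.extend e x (fun _ => x i0)), ⟨⟨?_, ?_⟩, ?_⟩, ?_⟩
      · intro k
        by_cases hk : ∃ i, e i = k
        · obtain ⟨i, rfl⟩ := hk
          show 0 ≤ Function.extend e w (fun _ => 0) (e i)
          rw [he.extend_apply]
          exact (hw0 i).le
        · show 0 ≤ Function.extend e w (fun _ => 0) k
          rw [Function.extend_apply' _ _ _ hk]
      · show ∑ k, Function.extend e w (fun _ => 0) k = 1
        rw [← hw1]
        symm
        apply Fintype.sum_of_injective e he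
        · intro k hk
          exact Function.extend_apply' _ _ _ hk
        · intro i
          rw [he.extend_apply]
      · intro k _
        show Function.extend e x (fun _ => x i0) k ∈ K
        by_cases hk : ∃ i, e i = k
        · obtain ⟨i, rfl⟩ := hk
          rw [he.extend_apply]
          exact hxK i
        · rw [Function.extend_apply' _ _ _ hk]
          exact hxK i0
      · rw [← hsum]
        symm
        apply Fintype.sum_of_injective e he
        · intro k hk
          show Function.extend e w (fun _ => 0) k • _ = _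
          rw [Function.extend_apply' _ _ _ hk, zero_smul]
        · intro i
          show w i • z i = Function.extend e w (fun _ => 0) (e i) •
            vecMulVec (Function.extend e x (fun _ => x i0) (e i)) (Function.extend e x (fun _ => x i0) (e i))
          rw [he.extend_apply, he.extend_apply, hxz i]
    · rintro M ⟨⟨w, x⟩, ⟨⟨hw0, hw1⟩, hx⟩, rfl⟩
      apply (convex_convexHull ℝ _).sum_mem
      · intro i _
        exact hw0 i
      · exact hw1
      · intro i _
        exact subset_convexHull ℝ _ ⟨x i, hx i (Set.mem_univ i), rfl⟩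
  rw [himg]
  exact hcomp.image hF

/-- J1a. D-optimal design: the determinant attains its maximum over the convex hull of `{x xᵀ : x ∈ K}`,
and the maximum is positive. Proof: `K` compact ⟹ `S = (fun x => vecMulVec x x) '' K` compact ⟹
`convexHull ℝ S` compact (`IsCompact.convexHull`, finite dimension; use functions `Fin 3 → Fin 3 → ℝ` if the
instances on `Matrix` are a problem), `det` continuous ⟹ maximum attained (`IsCompact.exists_isMaxOn`).
Positive: `K` symmetric convex with interior ⟹ `0 ∈ interior K` ⟹ for some `r > 0` all `Pi.single i r ∈ K`, and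
`(1/3) ∑ i, vecMulVec (Pi.single i r) (Pi.single i r) = (r^2/3) • 1` is in the hull, with determinant `(r^2/3)^3 > 0`. -/
theorem design (K : Set (Fin 3 → ℝ)) (hK : IsCompact K) (hc : Convex ℝ K)
    (hi : (interior K).Nonempty) (hs : ∀ x ∈ K, -x ∈ K) :
    ∃ A ∈ convexHull ℝ {M : Matrix (Fin 3) (Fin 3) ℝ | ∃ x ∈ K, M = vecMulVec x x},
      0 < A.det ∧ ∀ B ∈ convexHull ℝ {M : Matrix (Fin 3) (Fin 3) ℝ | ∃ x ∈ K, M = vecMulVec x x},
        B.det ≤ A.det := by
  classical
  have hcomp := design_hull_compact K hK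
  obtain ⟨p, hp⟩ := hi
  obtain ⟨ε, hε, hball⟩ := Metric.isOpen_iff.1 isOpen_interior p hp
  obtain ⟨r, hr⟩ : ∃ r : ℝ, r = ε / 4 := ⟨_, rfl⟩
  have hr0 : 0 < r := by rw [hr]; positivity
  have hsing : ∀ i : Fin 3, (Pi.single i r : Fin 3 → ℝ) ∈ K := by
    intro i
    have h1 : p + (2 : ℝ) • (Pi.single i r : Fin 3 → ℝ) ∈ K := by
      apply interior_subset
      apply hball
      rw [Metric.mem_ball, dist_eq_norm, add_sub_cancel_left, norm_smul, Pi.norm_single,
        Real.norm_eq_abs, Real.norm_eq_abs, abs_of_pos hr0, abs_of_pos (by norm_num : (0 : ℝ) < 2)]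
      rw [hr]
      linarith
    have h2 : -p ∈ K := hs p (interior_subset hp)
    have h3 := hc h1 h2 (by norm_num : (0 : ℝ) ≤ 1 / 2) (by norm_num : (0 : ℝ) ≤ 1 / 2) (by norm_num)
    have e : (1 / 2 : ℝ) • (p + (2 : ℝ) • (Pi.single i r : Fin 3 → ℝ)) + (1 / 2 : ℝ) • (-p) =
        Pi.single i r := by
      funext k
      simp only [Pi.add_apply, Pi.smul_apply, Pi.neg_apply, smul_eq_mul]
      ring
    rw [e] at h3
    exact h3
  have hM0 : (∑ i : Fin 3, (1 / 3 : ℝ) • vecMulVec (Pi.single i r : Fin 3 → ℝ) (Pi.single i r)) ∈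
      convexHull ℝ {M : Matrix (Fin 3) (Fin 3) ℝ | ∃ x ∈ K, M = vecMulVec x x} := by
    apply (convex_convexHull ℝ _).sum_mem
    · intro i _
      norm_num
    · simp
    · intro i _
      exact subset_convexHull ℝ _ ⟨_, hsing i, rfl⟩
  have hdet : 0 < (∑ i : Fin 3, (1 / 3 : ℝ) •
      vecMulVec (Pi.single i r : Fin 3 → ℝ) (Pi.single i r)).det := by
    have e : (∑ i : Fin 3, (1 / 3 : ℝ) • vecMulVec (Pi.single i r : Fin 3 → ℝ) (Pi.single i r)) =
        Matrix.diagonal (fun _ : Fin 3 => r ^ 2 / 3) := by
      ext a b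
      rw [Matrix.sum_apply]
      fin_cases a <;> fin_cases b <;>
        simp [Fin.sum_univ_three, vecMulVec_apply, Matrix.diagonal_apply, Pi.single_apply] <;> ring
    rw [e, Matrix.det_diagonal]
    positivity
  obtain ⟨A, hA, hmax⟩ := hcomp.exists_isMaxOn ⟨_, hM0⟩
    (continuous_id.matrix_det : Continuous fun M : Matrix (Fin 3) (Fin 3) ℝ => M.det).continuousOn
  refine ⟨A, hA, ?_, fun B hB => hmax hB⟩
  have h1 : (∑ i : Fin 3, (1 / 3 : ℝ) •
      vecMulVec (Pi.single i r : Fin 3 → ℝ) (Pi.single i r)).det ≤ A.det := hmax hM0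
  exact lt_of_lt_of_le hdet h1

end VI
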