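import Mathlib

set_option autoImplicit false

open Matrix Finset

namespace VI

open scoped MatrixOrder in
theorem psd_sqrt {A : Matrix (Fin 3) (Fin 3) ℝ} (h : A.PosSemidef) :
    ∃ L : Matrix (Fin 3) (Fin 3) ℝ, A = L * Lᵀ := by
  obtain ⟨B, hB⟩ := CStarAlgebra.nonneg_iff_eq_star_mul_self.mp h.nonneg
  refine ⟨Bᵀ, ?_⟩
  rw [transpose_transpose, hB, star_eq_conjTranspose, conjTranspose_eq_transpose_of_trivial]

theorem drop0 {ι E : Type*} [Fintype ι] [AddCommGroup E] [Module ℝ E] (w : ι → ℝ) (g : ι → E) :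
    ∑ i : {i // w i ≠ 0}, w i • g i = ∑ i, w i • g i := by
  classical
  rw [← Finset.sum_subtype (Finset.univ.filter (fun i => w i ≠ 0)) (by simp)
    (fun i => w i • g i)]
  apply Finset.sum_filter_of_ne
  intro i _ h hw
  apply h
  rw [hw, zero_smul]

theorem conj_vv (M : Matrix (Fin 3) (Fin 3) ℝ) (x : Fin 3 → ℝ) :
    M * vecMulVec x x * Mᵀ = vecMulVec (M *ᵥ x) (M *ᵥ x) := by
  rw [mul_vecMulVec, vecMulVec_mul, vecMul_transpose]

theorem det_iso (t : ℝ) (y : Fin 3 → ℝ) :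
    ((1 - t) • (1 : Matrix (Fin 3) (Fin 3) ℝ) + t • vecMulVec y y).det =
      (1 - t) ^ 2 * (1 - t + t * (y ⬝ᵥ y)) := by
  rw [det_fin_three]
  simp only [Matrix.add_apply, Matrix.smul_apply, vecMulVec_apply, smul_eq_mul, dotProduct,
    Fin.sum_univ_three, Matrix.one_apply_eq]
  have h01 : (1 : Matrix (Fin 3) (Fin 3) ℝ) 0 1 = 0 := by simp
  have h02 : (1 : Matrix (Fin 3) (Fin 3) ℝ) 0 2 = 0 := by simp
  have h10 : (1 : Matrix (Fin 3) (Fin 3) ℝ) 1 0 = 0 := by simp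
  have h12 : (1 : Matrix (Fin 3) (Fin 3) ℝ) 1 2 = 0 := by simp
  have h20 : (1 : Matrix (Fin 3) (Fin 3) ℝ) 2 0 = 0 := by simp
  have h21 : (1 : Matrix (Fin 3) (Fin 3) ℝ) 2 1 = 0 := by simp
  rw [h01, h02, h10, h12, h20, h21]
  ring

theorem three_bd (s : ℝ) (h : ∀ t : ℝ, 0 ≤ t → t ≤ 1 → (1 - t) ^ 2 * (1 - t + t * s) ≤ 1) :
    s ≤ 3 := by
  by_contra hcon
  push Not at hcon
  obtain ⟨δ, hδ⟩ : ∃ δ : ℝ, δ = s - 3 := ⟨_, rfl⟩
  have hs : s = 3 + δ := by linarith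
  have hδ0 : 0 < δ := by linarith
  obtain ⟨t, ht⟩ : ∃ t : ℝ, t = δ / (2 * (3 + 2 * δ)) := ⟨_, rfl⟩
  have ht0 : 0 < t := by
    rw [ht]
    positivity
  have ht2 : t * (3 + 2 * δ) = δ / 2 := by
    rw [ht]
    field_simp
  have ht1 : t ≤ 1 := by nlinarith
  have h1 := h t ht0.le ht1
  rw [hs] at h1
  have e : (1 - t) ^ 2 * (1 - t + t * (3 + δ)) = 1 + t * (δ - t * (3 + 2 * δ)) + t ^ 3 * (2 + δ) := by
    ring
  rw [e, ht2] at h1
  have h2 : 0 < t * (δ - δ / 2) := mul_pos ht0 (by linarith)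
  have h3 : 0 < t ^ 3 * (2 + δ) := by positivity
  linarith

/-- J1b. From a determinant maximizer `A` of the hull of `{x xᵀ : x ∈ K}` to the isotropic position.
Proof. `mem_convexHull_iff_exists_fintype` / `convexHull_eq` gives `A = ∑ w_j x_j x_jᵀ`, `w_j > 0` (drop the zero
weights), `∑ w_j = 1`, `x_j ∈ K`. `A` is positive semidefinite, so `A = L * Lᵀ` for a matrix `L`
(`Matrix.posSemidef_iff_eq_conjTranspose_mul_self`), and `det A = (det L)^2 > 0`, so `L` is invertible, `Li = L⁻¹`.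
Put `y_j = Li *ᵥ x_j`: then `∑ w_j y_j y_jᵀ = Li A Liᵀ = 1`. For `x ∈ K`, `y = Li *ᵥ x`, `t ∈ [0,1]`:
`(1-t) • A + t • x xᵀ = L ((1-t) • 1 + t • y yᵀ) Lᵀ` is in the hull, so `det ((1-t) • 1 + t • y yᵀ) ≤ 1`, that is
`(1-t)^2 * (1 - t + t * (y ⬝ᵥ y)) ≤ 1` (`Matrix.det_fin_three`), for all `t ∈ [0,1]`, which forces `y ⬝ᵥ y ≤ 3`.
The trace of `∑ w_j y_j y_jᵀ = 1` gives `∑ w_j (y_j ⬝ᵥ y_j) = 3` so `y_j ⬝ᵥ y_j = 3` for all `j` (as `w_j > 0`). -/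
theorem position_of_design (K : Set (Fin 3 → ℝ)) (A : Matrix (Fin 3) (Fin 3) ℝ)
    (hA : A ∈ convexHull ℝ {M : Matrix (Fin 3) (Fin 3) ℝ | ∃ x ∈ K, M = vecMulVec x x})
    (hdet : 0 < A.det)
    (hmax : ∀ B ∈ convexHull ℝ {M : Matrix (Fin 3) (Fin 3) ℝ | ∃ x ∈ K, M = vecMulVec x x},
        B.det ≤ A.det) :
    ∃ (L Li : Matrix (Fin 3) (Fin 3) ℝ) (n : ℕ) (w : Fin n → ℝ) (y : Fin n → Fin 3 → ℝ),
      L * Li = 1 ∧ Li * L = 1 ∧ (∀ j, 0 ≤ w j) ∧ (∑ j, w j = 1) ∧ (∀ j, y j ⬝ᵥ y j = 3) ∧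
      (∀ j, L *ᵥ (y j) ∈ K) ∧ (∀ a b, ∑ j, w j * (y j a * y j b) = if a = b then 1 else 0) ∧
      (∀ x ∈ K, (Li *ᵥ x) ⬝ᵥ (Li *ᵥ x) ≤ 3) := by
  classical
  obtain ⟨ι, hι, w, z, hw0, hw1, hz, hAz⟩ := mem_convexHull_iff_exists_fintype.1 hA
  choose x hxK hx using hz
  have hApsd : A.PosSemidef := by
    rw [← hAz]
    apply Matrix.posSemidef_sum
    intro i _
    rw [hx i]
    apply PosSemidef.smul _ (hw0 i)
    have := posSemidef_vecMulVec_self_star (x i)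
    simpa using this
  obtain ⟨L, hL⟩ := psd_sqrt hApsd
  have hdL : A.det = L.det * L.det := by
    rw [hL, det_mul, det_transpose]
  have hL0 : L.det ≠ 0 := by
    intro h
    rw [hdL, h] at hdet
    simp at hdet
  have hLu : IsUnit L.det := isUnit_iff_ne_zero.mpr hL0
  have hLi1 : L * L⁻¹ = 1 := mul_nonsing_inv L hLu
  have hLi2 : L⁻¹ * L = 1 := nonsing_inv_mul L hLu
  have hLA : L⁻¹ * A * L⁻¹ᵀ = 1 := by
    rw [hL, ← Matrix.mul_assoc, hLi2, Matrix.one_mul, ← transpose_mul, hLi2, transpose_one]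
  -- the bound
  have hbd : ∀ x ∈ K, (L⁻¹ *ᵥ x) ⬝ᵥ (L⁻¹ *ᵥ x) ≤ 3 := by
    intro x hx
    apply three_bd
    intro t ht0 ht1
    have hB : (1 - t) • A + t • vecMulVec x x ∈
        convexHull ℝ {M : Matrix (Fin 3) (Fin 3) ℝ | ∃ x ∈ K, M = vecMulVec x x} := by
      apply (convex_convexHull ℝ _) hA _ (by linarith) ht0 (by ring)
      exact subset_convexHull ℝ _ ⟨x, hx, rfl⟩
    have h1 := hmax _ hB
    have h2 : (1 - t) • A + t • vecMulVec x x =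
        L * ((1 - t) • (1 : Matrix (Fin 3) (Fin 3) ℝ) +
          t • vecMulVec (L⁻¹ *ᵥ x) (L⁻¹ *ᵥ x)) * Lᵀ := by
      rw [Matrix.mul_add, Matrix.add_mul, Matrix.mul_smul, Matrix.smul_mul, Matrix.mul_one,
        ← hL, Matrix.mul_smul, Matrix.smul_mul, conj_vv, mulVec_mulVec, hLi1, one_mulVec]
    rw [h2, det_mul, det_mul, det_transpose, det_iso] at h1
    rw [hdL] at h1
    have h3 : 0 < L.det * L.det := by rw [← hdL]; exact hdet
    have h4 : L.det * L.det * ((1 - t) ^ 2 * (1 - t + t * ((L⁻¹ *ᵥ x) ⬝ᵥ (L⁻¹ *ᵥ x)))) ≤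
        L.det * L.det * 1 := by
      rw [mul_one]
      calc _ = L.det * ((1 - t) ^ 2 * (1 - t + t * ((L⁻¹ *ᵥ x) ⬝ᵥ (L⁻¹ *ᵥ x)))) * L.det := by ring
        _ ≤ _ := h1
    exact le_of_mul_le_mul_left h4 h3
  let e : {i // w i ≠ 0} ≃ Fin (Fintype.card {i // w i ≠ 0}) := Fintype.equivFin _
  have hsum : ∀ {E : Type} [AddCommGroup E] [Module ℝ E] (g : ι → E),
      ∑ j, w (e.symm j) • g (e.symm j) = ∑ i, w i • g i := by
    intro E _ _ g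
    rw [← drop0 w g]
    exact Equiv.sum_comp e.symm (fun i : {i // w i ≠ 0} => w i • g i)
  have hmat : ∑ i, w i • vecMulVec (L⁻¹ *ᵥ x i) (L⁻¹ *ᵥ x i) = 1 := by
    have h1 : ∀ i, w i • vecMulVec (L⁻¹ *ᵥ x i) (L⁻¹ *ᵥ x i) = L⁻¹ * (w i • z i) * L⁻¹ᵀ := by
      intro i
      rw [Matrix.mul_smul, Matrix.smul_mul, hx i, conj_vv]
    rw [Finset.sum_congr rfl (fun i _ => h1 i), ← Matrix.sum_mul, ← Matrix.mul_sum, hAz, hLA]
  have hent : ∀ a b, ∑ j, w (e.symm j) * ((L⁻¹ *ᵥ x (e.symm j)) a * (L⁻¹ *ᵥ x (e.symm j)) b) =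
      if a = b then 1 else 0 := by
    intro a b
    have h1 := hsum (fun i => (L⁻¹ *ᵥ x i) a * (L⁻¹ *ᵥ x i) b)
    simp only [smul_eq_mul] at h1
    rw [h1]
    have h2 := congrFun (congrFun hmat a) b
    rw [Matrix.sum_apply, Matrix.one_apply] at h2
    simpa only [Matrix.smul_apply, vecMulVec_apply, smul_eq_mul] using h2
  refine ⟨L, L⁻¹, Fintype.card {i // w i ≠ 0}, fun j => w (e.symm j),
    fun j => L⁻¹ *ᵥ x (e.symm j), hLi1, hLi2, fun j => hw0 _, ?_, ?_, ?_, hent, hbd⟩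
  · have h1 := hsum (fun _ => (1 : ℝ))
    simp only [smul_eq_mul, mul_one] at h1
    rw [h1, hw1]
  · -- norms
    have hw1' : ∑ j, w (e.symm j) = 1 := by
      have h1 := hsum (fun _ => (1 : ℝ))
      simp only [smul_eq_mul, mul_one] at h1
      rw [h1, hw1]
    have htr : ∑ j, w (e.symm j) * ((L⁻¹ *ᵥ x (e.symm j)) ⬝ᵥ (L⁻¹ *ᵥ x (e.symm j))) = 3 := by
      have h0 := hent 0 0
      have h1 := hent 1 1
      have h2 := hent 2 2
      rw [if_pos rfl] at h0 h1 h2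
      simp only [dotProduct, Fin.sum_univ_three]
      have h3 : ∀ j, w (e.symm j) * ((L⁻¹ *ᵥ x (e.symm j)) 0 * (L⁻¹ *ᵥ x (e.symm j)) 0 +
          (L⁻¹ *ᵥ x (e.symm j)) 1 * (L⁻¹ *ᵥ x (e.symm j)) 1 +
          (L⁻¹ *ᵥ x (e.symm j)) 2 * (L⁻¹ *ᵥ x (e.symm j)) 2) =
          w (e.symm j) * ((L⁻¹ *ᵥ x (e.symm j)) 0 * (L⁻¹ *ᵥ x (e.symm j)) 0) +
          w (e.symm j) * ((L⁻¹ *ᵥ x (e.symm j)) 1 * (L⁻¹ *ᵥ x (e.symm j)) 1) +
          w (e.symm j) * ((L⁻¹ *ᵥ x (e.symm j)) 2 * (L⁻¹ *ᵥ x (e.symm j)) 2) := by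
        intro j
        ring
      rw [Finset.sum_congr rfl (fun j _ => h3 j), Finset.sum_add_distrib, Finset.sum_add_distrib,
        h0, h1, h2]
      norm_num
    have hz0 : ∑ j, w (e.symm j) *
        (3 - (L⁻¹ *ᵥ x (e.symm j)) ⬝ᵥ (L⁻¹ *ᵥ x (e.symm j))) = 0 := by
      simp only [mul_sub]
      rw [Finset.sum_sub_distrib, htr, ← Finset.sum_mul, hw1']
      norm_num
    have hnn : ∀ j ∈ Finset.univ, 0 ≤ w (e.symm j) *
        (3 - (L⁻¹ *ᵥ x (e.symm j)) ⬝ᵥ (L⁻¹ *ᵥ x (e.symm j))) := by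
      intro j _
      apply mul_nonneg (hw0 _)
      have := hbd (x (e.symm j)) (hxK _)
      linarith
    have hall := (Finset.sum_eq_zero_iff_of_nonneg hnn).1 hz0
    intro j
    have h1 := hall j (Finset.mem_univ j)
    rcases mul_eq_zero.mp h1 with h | h
    · exact absurd h (e.symm j).2
    · simp only
      linarith
  · intro j
    simp only
    rw [mulVec_mulVec, hLi1, one_mulVec]
    exact hxK _


end VI
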