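import Mathlib

set_option autoImplicit false

open Finset

namespace VI

theorem abscos_half_33947 (c : ℝ) : ∫ x in c..(c + Real.pi), |Real.cos x| = 2 := by
  have hper : Function.Periodic (fun x : ℝ => |Real.cos x|) Real.pi := by
    intro x
    simp [Real.cos_add_pi]
  rw [hper.intervalIntegral_add_eq c (-(Real.pi / 2))]
  have h1 : -(Real.pi / 2) + Real.pi = Real.pi / 2 := by ring
  rw [h1]
  have h2 : ∫ x in (-(Real.pi / 2))..(Real.pi / 2), |Real.cos x| =
      ∫ x in (-(Real.pi / 2))..(Real.pi / 2), Real.cos x := by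
    apply intervalIntegral.integral_congr
    intro x hx
    rw [Set.uIcc_of_le (by linarith [Real.pi_pos])] at hx
    exact abs_of_nonneg (Real.cos_nonneg_of_mem_Icc hx)
  rw [h2, integral_cos]
  simp
  norm_num

theorem abscos_full_33947 (c : ℝ) : ∫ x in c..(c + 2 * Real.pi), |Real.cos x| = 4 := by
  have hc : Continuous (fun x : ℝ => |Real.cos x|) := Real.continuous_cos.abs
  have h := intervalIntegral.integral_add_adjacent_intervals
    (hc.intervalIntegrable (μ := MeasureTheory.volume) c (c + Real.pi))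
    (hc.intervalIntegrable (c + Real.pi) (c + Real.pi + Real.pi))
  have h1 : c + Real.pi + Real.pi = c + 2 * Real.pi := by ring
  rw [abscos_half_33947, abscos_half_33947, h1] at h
  rw [← h]; norm_num

theorem one_33947 (a b : ℝ) :
    ∫ θ in (0 : ℝ)..(2 * Real.pi), |a * Real.cos θ + b * Real.sin θ| = 4 * √(a ^ 2 + b ^ 2) := by
  set z : ℂ := ⟨a, b⟩ with hz
  have hR : ‖z‖ = √(a ^ 2 + b ^ 2) := by
    rw [Complex.norm_def, Complex.normSq_apply]
    congr 1
    simp [hz]; ring
  have ha : ‖z‖ * Real.cos z.arg = a := Complex.norm_mul_cos_arg z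
  have hb : ‖z‖ * Real.sin z.arg = b := Complex.norm_mul_sin_arg z
  have h1 : ∀ θ : ℝ, |a * Real.cos θ + b * Real.sin θ| = ‖z‖ * |Real.cos (θ - z.arg)| := by
    intro θ
    rw [Real.cos_sub]
    have : a * Real.cos θ + b * Real.sin θ =
        ‖z‖ * (Real.cos θ * Real.cos z.arg + Real.sin θ * Real.sin z.arg) := by
      rw [← ha, ← hb]
      have e1 : ‖z‖ * Real.cos z.arg = a := ha
      have e2 : ‖z‖ * Real.sin z.arg = b := hb
      ring
    rw [this, abs_mul, abs_of_nonneg (norm_nonneg z)]
  simp only [h1]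
  rw [intervalIntegral.integral_const_mul,
    intervalIntegral.integral_comp_sub_right (fun x => |Real.cos x|) z.arg]
  have h2 : 2 * Real.pi - z.arg = (0 - z.arg) + 2 * Real.pi := by ring
  rw [h2, abscos_full_33947, hR]
  ring

/-- J2. Planar averaging. Proof: `∫ θ in 0..2π, |a cos θ + b sin θ| = 4 √(a²+b²)` (write `a cos θ + b sin θ =
R cos (θ - φ)`, `R = √(a²+b²)`, shift by periodicity, `∫ |cos| over a period = 4`), the same for
`|-a sin θ + b cos θ|`; the average over `[0, 2π]` of the left side is `(4/π) ∑ w_j R_j`, so some `θ` is ≤ the average. -/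
theorem planar {n : ℕ} (w a b : Fin n → ℝ) (hw : ∀ j, 0 ≤ w j) :
    ∃ θ : ℝ, ∑ j, w j * (|a j * Real.cos θ + b j * Real.sin θ| +
      |-(a j) * Real.sin θ + b j * Real.cos θ|) ≤
      (4 / Real.pi) * ∑ j, w j * √((a j) ^ 2 + (b j) ^ 2) := by
  by_contra hcon
  push Not at hcon
  have hcont : ∀ j, Continuous (fun θ : ℝ => w j * (|a j * Real.cos θ + b j * Real.sin θ| +
      |-(a j) * Real.sin θ + b j * Real.cos θ|)) := by
    intro j
    fun_prop
  have hint : ∀ j, ∫ θ in (0 : ℝ)..(2 * Real.pi), w j * (|a j * Real.cos θ + b j * Real.sin θ| +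
      |-(a j) * Real.sin θ + b j * Real.cos θ|) = 8 * (w j * √((a j) ^ 2 + (b j) ^ 2)) := by
    intro j
    have h1 : IntervalIntegrable (fun θ : ℝ => |a j * Real.cos θ + b j * Real.sin θ|)
        MeasureTheory.volume 0 (2 * Real.pi) := by
      apply Continuous.intervalIntegrable; fun_prop
    have h2 : IntervalIntegrable (fun θ : ℝ => |-(a j) * Real.sin θ + b j * Real.cos θ|)
        MeasureTheory.volume 0 (2 * Real.pi) := by
      apply Continuous.intervalIntegrable; fun_prop
    rw [intervalIntegral.integral_const_mul, intervalIntegral.integral_add h1 h2, one_33947]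
    have h3 : ∫ θ in (0 : ℝ)..(2 * Real.pi), |-(a j) * Real.sin θ + b j * Real.cos θ| =
        ∫ θ in (0 : ℝ)..(2 * Real.pi), |b j * Real.cos θ + (-(a j)) * Real.sin θ| := by
      congr 1
      funext θ
      rw [add_comm]
    rw [h3, one_33947]
    have h4 : (b j) ^ 2 + (-(a j)) ^ 2 = (a j) ^ 2 + (b j) ^ 2 := by ring
    rw [h4]
    ring
  have hpos := intervalIntegral.intervalIntegral_pos_of_pos (a := 0) (b := 2 * Real.pi)
    (f := fun θ => ∑ j, w j * (|a j * Real.cos θ + b j * Real.sin θ| +
      |-(a j) * Real.sin θ + b j * Real.cos θ|) -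
      (4 / Real.pi) * ∑ j, w j * √((a j) ^ 2 + (b j) ^ 2))
    (by
      apply Continuous.intervalIntegrable
      exact (continuous_finset_sum _ (fun j _ => hcont j)).sub continuous_const)
    (fun θ => sub_pos.2 (hcon θ)) (by positivity)
  rw [intervalIntegral.integral_sub
    (Continuous.intervalIntegrable (continuous_finset_sum _ (fun j _ => hcont j)) _ _)
    (by apply Continuous.intervalIntegrable; exact continuous_const),
    intervalIntegral.integral_finset_sum
      (fun j _ => (hcont j).intervalIntegrable _ _)] at hpos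
  simp only [hint] at hpos
  rw [← Finset.mul_sum, intervalIntegral.integral_const] at hpos
  have hpi : Real.pi ≠ 0 := Real.pi_ne_zero
  have : (2 * Real.pi - 0) • (4 / Real.pi * ∑ j, w j * √((a j) ^ 2 + (b j) ^ 2)) =
      8 * ∑ j, w j * √((a j) ^ 2 + (b j) ^ 2) := by
    rw [smul_eq_mul]
    field_simp
    ring
  rw [this, sub_self] at hpos
  exact lt_irrefl _ hpos

end VI
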