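import Mathlib

set_option autoImplicit false

open Matrix Finset

namespace VI

/-- index -/
abbrev J4I := Fin 3 × Fin 3 × Fin 3 × Fin 3

/-- product -/
def J4Y (y : Fin 3 → ℝ) (p : J4I) : ℝ := y p.1 * y p.2.1 * y p.2.2.1 * y p.2.2.2

/-- delta -/
def J4d (a b : Fin 3) : ℝ := if a = b then 1 else 0

/-- symmetrised delta -/
def J4S (p : J4I) : ℝ :=
  J4d p.1 p.2.1 * J4d p.2.2.1 p.2.2.2 + J4d p.1 p.2.2.1 * J4d p.2.1 p.2.2.2 +
    J4d p.1 p.2.2.2 * J4d p.2.1 p.2.2.1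

theorem J4_YY (y z : Fin 3 → ℝ) : ∑ p : J4I, J4Y y p * J4Y z p = (y ⬝ᵥ z) ^ 4 := by
  simp only [Fintype.sum_prod_type, Fin.sum_univ_three, J4Y, dotProduct]
  ring

theorem J4_YS (y : Fin 3 → ℝ) : ∑ p : J4I, J4Y y p * J4S p = 3 * (y ⬝ᵥ y) ^ 2 := by
  simp only [Fintype.sum_prod_type, Fin.sum_univ_three, J4Y, dotProduct, J4S, J4d]
  simp
  ring

theorem J4_SS : ∑ p : J4I, J4S p ^ 2 = 45 := by
  simp only [Fintype.sum_prod_type, Fin.sum_univ_three, J4S, J4d]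
  simp
  norm_num

/-- J4. Fourth moment of unit-like vectors (Welch bound in `ℝ³`): all `|y_j|² = 3`, `∑ w_j = 1` (signs of `w` are
irrelevant). Proof: let `S a b c d = δ_ab δ_cd + δ_ac δ_bd + δ_ad δ_bc` and
`T a b c d = ∑_j w_j y_j(a) y_j(b) y_j(c) y_j(d) - (9/15) * S a b c d`; then
`0 ≤ ∑_{abcd} T² = ∑_{ij} w_i w_j (y_i·y_j)^4 - 2*(9/15)*27 + (9/15)^2*45 = ∑∑ - 81/5`
(`∑_{abcd} y y y y S = 3 |y|^4 = 27`, `∑ S² = 45`). -/
theorem fourth {n : ℕ} (w : Fin n → ℝ) (y : Fin n → Fin 3 → ℝ)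
    (h1 : ∑ j, w j = 1) (hy : ∀ j, y j ⬝ᵥ y j = 3) :
    81 / 5 ≤ ∑ i, ∑ j, w i * (w j * (y i ⬝ᵥ y j) ^ 4) := by
  have h0 : 0 ≤ ∑ p : J4I, (∑ j, w j * J4Y (y j) p - 9 / 15 * J4S p) ^ 2 :=
    Finset.sum_nonneg fun p _ => sq_nonneg _
  have e1 : ∑ p : J4I, (∑ j, w j * J4Y (y j) p) ^ 2 =
      ∑ i, ∑ j, w i * (w j * (y i ⬝ᵥ y j) ^ 4) := by
    calc ∑ p : J4I, (∑ j, w j * J4Y (y j) p) ^ 2
        = ∑ p : J4I, ∑ i, ∑ j, w i * (w j * (J4Y (y i) p * J4Y (y j) p)) := by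
          refine Finset.sum_congr rfl fun p _ => ?_
          rw [sq, Finset.sum_mul_sum]
          refine Finset.sum_congr rfl fun i _ => Finset.sum_congr rfl fun j _ => ?_
          ring
      _ = ∑ i, ∑ j, ∑ p : J4I, w i * (w j * (J4Y (y i) p * J4Y (y j) p)) := by
          rw [Finset.sum_comm]
          refine Finset.sum_congr rfl fun i _ => ?_
          rw [Finset.sum_comm]
      _ = _ := by
          refine Finset.sum_congr rfl fun i _ => Finset.sum_congr rfl fun j _ => ?_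
          rw [← Finset.mul_sum, ← Finset.mul_sum, J4_YY]
  have e2 : ∑ p : J4I, (∑ j, w j * J4Y (y j) p) * J4S p = 27 := by
    calc ∑ p : J4I, (∑ j, w j * J4Y (y j) p) * J4S p
        = ∑ p : J4I, ∑ j, w j * (J4Y (y j) p * J4S p) := by
          refine Finset.sum_congr rfl fun p _ => ?_
          rw [Finset.sum_mul]
          refine Finset.sum_congr rfl fun j _ => ?_
          ring
      _ = ∑ j, ∑ p : J4I, w j * (J4Y (y j) p * J4S p) := Finset.sum_comm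
      _ = ∑ j, w j * 27 := by
          refine Finset.sum_congr rfl fun j _ => ?_
          rw [← Finset.mul_sum, J4_YS, hy]
          norm_num
      _ = 27 := by rw [← Finset.sum_mul, h1, one_mul]
  have e3 : ∑ p : J4I, (∑ j, w j * J4Y (y j) p - 9 / 15 * J4S p) ^ 2 =
      ∑ p : J4I, (∑ j, w j * J4Y (y j) p) ^ 2
        - 2 * (9 / 15) * ∑ p : J4I, (∑ j, w j * J4Y (y j) p) * J4S p
        + (9 / 15) ^ 2 * ∑ p : J4I, J4S p ^ 2 := by
    rw [Finset.mul_sum, Finset.mul_sum, ← Finset.sum_sub_distrib, ← Finset.sum_add_distrib]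
    refine Finset.sum_congr rfl fun p _ => ?_
    ring
  rw [e3, e1, e2, J4_SS] at h0
  linarith

end VI
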