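import Mathlib

set_option autoImplicit false

open Matrix Finset

namespace VI

theorem completion (e : Fin 3 → ℝ) (he : e ⬝ᵥ e = 1) :
    ∃ f g : Fin 3 → ℝ, f ⬝ᵥ f = 1 ∧ g ⬝ᵥ g = 1 ∧ e ⬝ᵥ f = 0 ∧ e ⬝ᵥ g = 0 ∧ f ⬝ᵥ g = 0 := by
  have he' : e 0 ^ 2 + e 1 ^ 2 + e 2 ^ 2 = 1 := by
    simp only [dotProduct, Fin.sum_univ_three] at he
    nlinarith
  by_cases h : e 0 ^ 2 + e 1 ^ 2 = 0
  · have h0 : e 0 = 0 := by nlinarith [sq_nonneg (e 0), sq_nonneg (e 1)]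
    have h1 : e 1 = 0 := by nlinarith [sq_nonneg (e 0), sq_nonneg (e 1)]
    refine ⟨![1, 0, 0], ![0, 1, 0], ?_, ?_, ?_, ?_, ?_⟩ <;>
      simp [dotProduct, Fin.sum_univ_three, h0, h1]
  · have hp : 0 < e 0 ^ 2 + e 1 ^ 2 := lt_of_le_of_ne (by positivity) (Ne.symm h)
    set r := √(e 0 ^ 2 + e 1 ^ 2) with hr
    have hr0 : 0 < r := Real.sqrt_pos.2 hp
    have hr2 : r ^ 2 = e 0 ^ 2 + e 1 ^ 2 := Real.sq_sqrt hp.le
    refine ⟨![-e 1 / r, e 0 / r, 0], ![-(e 2 * e 0) / r, -(e 2 * e 1) / r, r], ?_, ?_, ?_, ?_, ?_⟩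
    · simp only [dotProduct, Fin.sum_univ_three, Matrix.cons_val_zero, Matrix.cons_val_one,
        Matrix.cons_val]
      field_simp
      nlinarith
    · simp only [dotProduct, Fin.sum_univ_three, Matrix.cons_val_zero, Matrix.cons_val_one,
        Matrix.cons_val]
      field_simp
      have : e 2 ^ 2 = 1 - r ^ 2 := by rw [hr2]; linarith
      have h4 : e 2 ^ 2 * e 0 ^ 2 + e 2 ^ 2 * e 1 ^ 2 + r ^ 4 = r ^ 2 := by
        have : e 2 ^ 2 * e 0 ^ 2 + e 2 ^ 2 * e 1 ^ 2 = (1 - r ^ 2) * r ^ 2 := by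
          rw [this, hr2]; ring
        rw [this]; ring
      nlinarith
    · simp only [dotProduct, Fin.sum_univ_three, Matrix.cons_val_zero, Matrix.cons_val_one,
        Matrix.cons_val]
      field_simp
      ring
    · simp only [dotProduct, Fin.sum_univ_three, Matrix.cons_val_zero, Matrix.cons_val_one,
        Matrix.cons_val]
      field_simp
      rw [hr2]; ring
    · simp only [dotProduct, Fin.sum_univ_three, Matrix.cons_val_zero, Matrix.cons_val_one,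
        Matrix.cons_val]
      field_simp
      ring

theorem majorant (z : ℝ) (h0 : 0 ≤ z) (h1 : z ≤ 1) :
    √(1 - z) ≤ 1 - (434 / 1000) * z - (2965 / 10000) * z ^ 2 := by
  have hy0 : 0 ≤ √(1 - z) := Real.sqrt_nonneg _
  have hy1 : √(1 - z) ≤ 1 := by
    rw [Real.sqrt_le_one]
    linarith
  have hz : z = 1 - √(1 - z) ^ 2 := by
    rw [Real.sq_sqrt (by linarith)]; ring
  set y := √(1 - z) with hy
  rw [hz]
  have key : 0 ≤ 0.2695 - 0.7305 * y + 0.2965 * y ^ 2 + 0.2965 * y ^ 3 := by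
    nlinarith [mul_nonneg hy0 (sq_nonneg (y - 0.632)), sq_nonneg (y - 0.632)]
  nlinarith [mul_nonneg (sub_nonneg.2 hy1) key]

theorem complete3 (e f g : Fin 3 → ℝ) (ee : e ⬝ᵥ e = 1) (ff : f ⬝ᵥ f = 1) (gg : g ⬝ᵥ g = 1)
    (ef : e ⬝ᵥ f = 0) (eg : e ⬝ᵥ g = 0) (fg : f ⬝ᵥ g = 0) (x : Fin 3 → ℝ) :
    x = (x ⬝ᵥ e) • e + (x ⬝ᵥ f) • f + (x ⬝ᵥ g) • g := by
  let M : Matrix (Fin 3) (Fin 3) ℝ := ![e, f, g]
  have h1 : M * Mᵀ = 1 := by
    ext i j
    have fe : f ⬝ᵥ e = 0 := by rw [dotProduct_comm]; exact ef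
    have ge : g ⬝ᵥ e = 0 := by rw [dotProduct_comm]; exact eg
    have gf : g ⬝ᵥ f = 0 := by rw [dotProduct_comm]; exact fg
    have hM : ∀ i j, (M * Mᵀ) i j = M i ⬝ᵥ M j := by
      intro i j
      simp [Matrix.mul_apply, dotProduct]
    rw [hM]
    fin_cases i <;> fin_cases j <;> simp [M, ee, ff, gg, ef, eg, fg, fe, ge, gf]
  have h2 : Mᵀ * M = 1 := mul_eq_one_comm.1 h1
  have h3 : Mᵀ *ᵥ (M *ᵥ x) = x := by rw [Matrix.mulVec_mulVec, h2, Matrix.one_mulVec]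
  conv_lhs => rw [← h3]
  have hT : ∀ i, Mᵀ i 0 = e i ∧ Mᵀ i 1 = f i ∧ Mᵀ i 2 = g i := fun i => ⟨rfl, rfl, rfl⟩
  ext i
  obtain ⟨t0, t1, t2⟩ := hT i
  have m0 : (M *ᵥ x) 0 = x ⬝ᵥ e := by rw [dotProduct_comm]; rfl
  have m1 : (M *ᵥ x) 1 = x ⬝ᵥ f := by rw [dotProduct_comm]; rfl
  have m2 : (M *ᵥ x) 2 = x ⬝ᵥ g := by rw [dotProduct_comm]; rfl
  have : (Mᵀ *ᵥ (M *ᵥ x)) i = Mᵀ i 0 * (M *ᵥ x) 0 + Mᵀ i 1 * (M *ᵥ x) 1 + Mᵀ i 2 * (M *ᵥ x) 2 := by
    show ∑ k, Mᵀ i k * (M *ᵥ x) k = _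
    rw [Fin.sum_univ_three]
  rw [this, t0, t1, t2, m0, m1, m2]
  simp only [Pi.add_apply, Pi.smul_apply, smul_eq_mul]
  ring

theorem norm3 (e f g : Fin 3 → ℝ) (ee : e ⬝ᵥ e = 1) (ff : f ⬝ᵥ f = 1) (gg : g ⬝ᵥ g = 1)
    (ef : e ⬝ᵥ f = 0) (eg : e ⬝ᵥ g = 0) (fg : f ⬝ᵥ g = 0) (x : Fin 3 → ℝ) :
    x ⬝ᵥ x = (x ⬝ᵥ e) ^ 2 + (x ⬝ᵥ f) ^ 2 + (x ⬝ᵥ g) ^ 2 := by
  have h := complete3 e f g ee ff gg ef eg fg x
  have : x ⬝ᵥ x = x ⬝ᵥ ((x ⬝ᵥ e) • e + (x ⬝ᵥ f) • f + (x ⬝ᵥ g) • g) := by rw [← h]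
  rw [this, dotProduct_add, dotProduct_add, dotProduct_smul, dotProduct_smul, dotProduct_smul]
  simp only [smul_eq_mul]
  ring

theorem exists_le_avg {n : ℕ} (w f : Fin n → ℝ) (hw : ∀ j, 0 ≤ w j) (h1 : ∑ j, w j = 1) (C : ℝ)
    (h : ∑ i, w i * f i ≤ C) : ∃ i, f i ≤ C := by
  by_contra hcon
  push Not at hcon
  have h2 : ∑ i, w i * (f i - C) ≤ 0 := by
    simp only [mul_sub, Finset.sum_sub_distrib, ← Finset.sum_mul, h1]
    linarith
  have h3 : ∀ i ∈ (Finset.univ : Finset (Fin n)), 0 ≤ w i * (f i - C) := fun i _ =>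
    mul_nonneg (hw i) (by linarith [hcon i])
  have h4 : ∑ i, w i * (f i - C) = 0 := le_antisymm h2 (Finset.sum_nonneg h3)
  have h5 := (Finset.sum_eq_zero_iff_of_nonneg h3).1 h4
  have h6 : ∀ i, w i = 0 := by
    intro i
    have := h5 i (Finset.mem_univ i)
    rcases mul_eq_zero.1 this with h | h
    · exact h
    · linarith [hcon i]
  simp [h6] at h1

theorem mem_hull {E : Type*} [AddCommGroup E] [Module ℝ E] (p : Fin 3 → E) (c : Fin 3 → ℝ)
    (h : ∑ i, |c i| ≤ 1) :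
    ∑ i, c i • p i ∈ convexHull ℝ (Set.range p ∪ Set.range (fun i => -p i)) := by
  set H := convexHull ℝ (Set.range p ∪ Set.range (fun i => -p i)) with hH
  have hconv : Convex ℝ H := convex_convexHull ℝ _
  have hp : ∀ i, p i ∈ H := fun i => subset_convexHull ℝ _ (Or.inl ⟨i, rfl⟩)
  have hn : ∀ i, -p i ∈ H := fun i => subset_convexHull ℝ _ (Or.inr ⟨i, rfl⟩)
  have h0 : (0 : E) ∈ H := by
    have := hconv (hp 0) (hn 0) (by norm_num : (0 : ℝ) ≤ 1 / 2) (by norm_num : (0 : ℝ) ≤ 1 / 2)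
      (by norm_num)
    simpa using this
  let W : Option (Fin 3) → ℝ := fun o => o.elim (1 - ∑ i, |c i|) (fun i => |c i|)
  let Z : Option (Fin 3) → E := fun o => o.elim 0 (fun i => if 0 ≤ c i then p i else -p i)
  have hsum : ∑ o, W o = 1 := by
    rw [Fintype.sum_option]
    simp [W]
  have hmem := hconv.sum_mem (t := Finset.univ) (w := W) (z := Z)
    (by
      intro o _
      cases o with
      | none => simp [W]; simpa using h
      | some i => simp [W])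
    hsum
    (by
      intro o _
      cases o with
      | none => simpa [Z] using h0
      | some i =>
        simp only [Z, Option.elim]
        split_ifs
        · exact hp i
        · exact hn i)
  rw [Fintype.sum_option] at hmem
  have : ∀ i, W (some i) • Z (some i) = c i • p i := by
    intro i
    simp only [W, Z, Option.elim]
    split_ifs with hc
    · rw [abs_of_nonneg hc]
    · rw [abs_of_neg (not_le.1 hc)]; simp
  simp only [this] at hmem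
  simpa [Z] using hmem

theorem zero_mem_interior {K : Set (Fin 3 → ℝ)} (hc : Convex ℝ K)
    (hi : (interior K).Nonempty) (hs : ∀ x ∈ K, -x ∈ K) : (0 : Fin 3 → ℝ) ∈ interior K := by
  obtain ⟨x, hx⟩ := hi
  have hneg : -x ∈ interior K := by
    have hK : (fun z : Fin 3 → ℝ => -z) ⁻¹' K = K := by
      ext z
      constructor
      · intro hz
        have := hs _ hz
        simpa using this
      · intro hz
        exact hs z hz
    have hopen : IsOpen ((fun z : Fin 3 → ℝ => -z) ⁻¹' interior K) :=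
      isOpen_interior.preimage continuous_neg
    have hsub : (fun z : Fin 3 → ℝ => -z) ⁻¹' interior K ⊆ K := by
      intro z hz
      rw [← hK]
      have hz' : -z ∈ interior K := hz
      exact (interior_subset hz' : -z ∈ K)
    have : -x ∈ (fun z : Fin 3 → ℝ => -z) ⁻¹' interior K := by simpa using hx
    exact interior_maximal hsub hopen this
  have := hc.interior hx hneg (by norm_num : (0 : ℝ) ≤ 1 / 2) (by norm_num : (0 : ℝ) ≤ 1 / 2)
    (by norm_num)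
  simpa using this

theorem gauge_comb {K : Set (Fin 3 → ℝ)} (hc : Convex ℝ K)
    (hi : (interior K).Nonempty) (hs : ∀ x ∈ K, -x ∈ K) {n : ℕ} (c : Fin n → ℝ)
    (x : Fin n → Fin 3 → ℝ) (hx : ∀ j, x j ∈ K) :
    gauge K (∑ j, c j • x j) ≤ ∑ j, |c j| := by
  have habs : Absorbent ℝ K :=
    absorbent_nhds_zero (mem_interior_iff_mem_nhds.1 (zero_mem_interior hc hi hs))
  refine (gauge_sum_le hc habs _ _).trans (Finset.sum_le_sum fun j _ => ?_)
  have h1 : gauge K (c j • x j) = gauge K (|c j| • x j) := by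
    rcases le_total 0 (c j) with h | h
    · rw [abs_of_nonneg h]
    · rw [abs_of_nonpos h, ← gauge_neg hs]
      congr 1
      simp
  rw [h1, gauge_smul_of_nonneg (abs_nonneg _), smul_eq_mul]
  calc |c j| * gauge K (x j) ≤ |c j| * 1 :=
        mul_le_mul_of_nonneg_left (gauge_le_one_of_mem (hx j)) (abs_nonneg _)
    _ = |c j| := mul_one _

end VI
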