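import Mathlib
import Pool.Agent.Helper841.VI.A
import Pool.Agent.Helper841.VI.B
import Pool.Agent.Helper841.VI.C
import Pool.Agent.Helper841.VI.D
import Pool.Agent.Helper841.VI.Main

set_option autoImplicit false

open Matrix Finset

namespace VI

theorem iso_expand {n : ℕ} (w : Fin n → ℝ) (y : Fin n → Fin 3 → ℝ)
    (hiso : ∀ a b, ∑ j, w j * (y j a * y j b) = if a = b then 1 else 0) (u : Fin 3 → ℝ) :
    u = ∑ j, (w j * (y j ⬝ᵥ u)) • y j := by
  ext a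
  have h0 := hiso a 0
  have h1 := hiso a 1
  have h2 := hiso a 2
  have : (∑ j, (w j * (y j ⬝ᵥ u)) • y j) a =
      (∑ j, w j * (y j a * y j 0)) * u 0 + (∑ j, w j * (y j a * y j 1)) * u 1 +
        (∑ j, w j * (y j a * y j 2)) * u 2 := by
    rw [Finset.sum_apply, Finset.sum_mul, Finset.sum_mul, Finset.sum_mul,
      ← Finset.sum_add_distrib, ← Finset.sum_add_distrib]
    refine Finset.sum_congr rfl fun j _ => ?_
    simp only [Pi.smul_apply, smul_eq_mul, dotProduct, Fin.sum_univ_three]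
    ring
  rw [this, h0, h1, h2]
  fin_cases a <;> simp

theorem second {n : ℕ} (w : Fin n → ℝ) (y : Fin n → Fin 3 → ℝ)
    (h1 : ∑ j, w j = 1) (hy : ∀ j, y j ⬝ᵥ y j = 3)
    (hiso : ∀ a b, ∑ j, w j * (y j a * y j b) = if a = b then 1 else 0) :
    ∑ i, ∑ j, w i * (w j * (y i ⬝ᵥ y j) ^ 2) = 3 := by
  have : ∀ i, ∑ j, w i * (w j * (y i ⬝ᵥ y j) ^ 2) = w i * 3 := by
    intro i
    rw [← Finset.mul_sum]
    congr 1
    have h := iso_expand w y hiso (y i)
    have h2 : y i ⬝ᵥ y i = y i ⬝ᵥ (∑ j, (w j * (y j ⬝ᵥ y i)) • y j) := by rw [← h]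
    rw [hy i, dotProduct_sum] at h2
    rw [h2]
    refine Finset.sum_congr rfl fun j _ => ?_
    rw [dotProduct_smul, smul_eq_mul, dotProduct_comm (y j) (y i)]
    ring
  simp only [this, ← Finset.sum_mul, h1]
  norm_num

theorem kappa {n : ℕ} (w : Fin n → ℝ) (y : Fin n → Fin 3 → ℝ) (hw : ∀ j, 0 ≤ w j)
    (h1 : ∑ j, w j = 1) (hy : ∀ j, y j ⬝ᵥ y j = 3)
    (hiso : ∀ a b, ∑ j, w j * (y j a * y j b) = if a = b then 1 else 0) :
    ∃ i, ∑ j, w j * √(3 - (y i ⬝ᵥ y j) ^ 2 / 3) ≤ √3 * (1 - (434 / 1000) / 3 - (2965 / 10000) / 5) := by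
  refine exists_le_avg w _ hw h1 _ ?_
  have hcs : ∀ i j, (y i ⬝ᵥ y j) ^ 2 ≤ 9 := by
    intro i j
    have h := Finset.sum_mul_sq_le_sq_mul_sq Finset.univ (y i) (y j)
    have e1 : ∑ k, (y i k) ^ 2 = 3 := by
      rw [← hy i]; simp only [dotProduct]; exact Finset.sum_congr rfl fun _ _ => by ring
    have e2 : ∑ k, (y j k) ^ 2 = 3 := by
      rw [← hy j]; simp only [dotProduct]; exact Finset.sum_congr rfl fun _ _ => by ring
    rw [e1, e2] at h
    simp only [dotProduct]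
    linarith
  have hb : ∀ i j, √(3 - (y i ⬝ᵥ y j) ^ 2 / 3) ≤ √3 * (1 - (434 / 1000) * ((y i ⬝ᵥ y j) ^ 2 / 9) -
      (2965 / 10000) * ((y i ⬝ᵥ y j) ^ 2 / 9) ^ 2) := by
    intro i j
    have : 3 - (y i ⬝ᵥ y j) ^ 2 / 3 = 3 * (1 - (y i ⬝ᵥ y j) ^ 2 / 9) := by ring
    rw [this, Real.sqrt_mul (by norm_num)]
    refine mul_le_mul_of_nonneg_left (majorant _ (by positivity) ?_) (Real.sqrt_nonneg _)
    have := hcs i j
    linarith
  have hs := second w y h1 hy hiso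
  have hf := fourth w y h1 hy
  calc ∑ i, w i * ∑ j, w j * √(3 - (y i ⬝ᵥ y j) ^ 2 / 3)
      ≤ ∑ i, w i * ∑ j, w j * (√3 * (1 - (434 / 1000) * ((y i ⬝ᵥ y j) ^ 2 / 9) -
      (2965 / 10000) * ((y i ⬝ᵥ y j) ^ 2 / 9) ^ 2)) := by
        refine Finset.sum_le_sum fun i _ => mul_le_mul_of_nonneg_left ?_ (hw i)
        exact Finset.sum_le_sum fun j _ => mul_le_mul_of_nonneg_left (hb i j) (hw j)
    _ = √3 * ((∑ i, w i * ∑ j, w j) - (434 / 9000) * (∑ i, ∑ j, w i * (w j * (y i ⬝ᵥ y j) ^ 2)) -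
      (2965 / 810000) * (∑ i, ∑ j, w i * (w j * (y i ⬝ᵥ y j) ^ 4))) := by
        simp only [Finset.mul_sum, ← Finset.sum_sub_distrib]
        refine Finset.sum_congr rfl fun i _ => Finset.sum_congr rfl fun j _ => ?_
        ring
    _ ≤ √3 * (1 - (434 / 1000) / 3 - (2965 / 10000) / 5) := by
        refine mul_le_mul_of_nonneg_left ?_ (Real.sqrt_nonneg _)
        rw [hs, h1]
        simp only [mul_one, h1]
        linarith

theorem numeric : 2 * (19 / 10 + (11761 / 10000) * √6 * ((4 / Real.pi) *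
    (√3 * (1 - (434 / 1000) / 3 - (2965 / 10000) / 5)))) ≤ 13.92 := by
  have hpi : (3.14159 : ℝ) < Real.pi := by linarith [Real.pi_gt_d6]
  have hpos : 0 < Real.pi := Real.pi_pos
  have h63 : √6 * √3 ≤ 4.2427 := by
    rw [← Real.sqrt_mul (by norm_num)]
    rw [show (6 : ℝ) * 3 = 18 by norm_num]
    rw [Real.sqrt_le_left (by norm_num)]
    norm_num
  have h4 : 4 / Real.pi ≤ 4 / 3.14159 := by
    apply div_le_div_of_nonneg_left (by norm_num) (by norm_num) hpi.le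
  have h5 : 0 ≤ 4 / Real.pi := by positivity
  have h6 : 0 ≤ √6 * √3 := by positivity
  have h7 : (4 / Real.pi) * (√6 * √3) ≤ (4 / 3.14159) * 4.2427 := mul_le_mul h4 h63 h6 (by norm_num)
  have h8 : 2 * (19 / 10 + (11761 / 10000) * √6 * ((4 / Real.pi) *
    (√3 * (1 - (434 / 1000) / 3 - (2965 / 10000) / 5)))) = 2 * (19 / 10 + (11761 / 10000) *
      (1 - (434 / 1000) / 3 - (2965 / 10000) / 5) * ((4 / Real.pi) * (√6 * √3))) := by ring
  rw [h8]
  norm_num at h7 ⊢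
  linarith

theorem cover_num (α β γ : ℝ) (h : α ^ 2 + β ^ 2 + γ ^ 2 ≤ 3) :
    |α / (19 / 10 * √3)| + |β / (11761 / 10000 * √6)| + |γ / (11761 / 10000 * √6)| ≤ 1 := by
  have h3 : 0 < √3 := Real.sqrt_pos.2 (by norm_num)
  have h6 : 0 < √6 := Real.sqrt_pos.2 (by norm_num)
  set s : ℝ := 1 / (19 / 10 * √3) with hs
  set t : ℝ := 1 / (11761 / 10000 * √6) with ht
  have hs0 : 0 < s := by positivity
  have ht0 : 0 < t := by positivity
  have hs2 : s ^ 2 = 100 / 1083 := by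
    rw [hs, div_pow, mul_pow, Real.sq_sqrt (by norm_num)]; norm_num
  have ht2 : t ^ 2 = 100000000 / 829926726 := by
    rw [ht, div_pow, mul_pow, Real.sq_sqrt (by norm_num)]; norm_num
  have e1 : |α / (19 / 10 * √3)| = |α| * s := by
    rw [abs_div, abs_of_pos (by positivity : 0 < 19 / 10 * √3), hs]; ring
  have e2 : ∀ b : ℝ, |b / (11761 / 10000 * √6)| = |b| * t := by
    intro b
    rw [abs_div, abs_of_pos (by positivity : 0 < 11761 / 10000 * √6), ht]; ring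
  rw [e1, e2, e2]
  set X := |α| * s + |β| * t + |γ| * t with hX
  have hX0 : 0 ≤ X := by positivity
  have hCS : X ^ 2 ≤ (α ^ 2 + β ^ 2 + γ ^ 2) * (s ^ 2 + t ^ 2 + t ^ 2) := by
    rw [← sq_abs α, ← sq_abs β, ← sq_abs γ, hX]
    nlinarith [sq_nonneg (|α| * t - |β| * s), sq_nonneg (|α| * t - |γ| * s),
      sq_nonneg (|β| * t - |γ| * t)]
  have h9 : s ^ 2 + t ^ 2 + t ^ 2 ≤ 1 / 3 := by rw [hs2, ht2]; norm_num
  have h10 : X ^ 2 ≤ 1 := by
    calc X ^ 2 ≤ (α ^ 2 + β ^ 2 + γ ^ 2) * (s ^ 2 + t ^ 2 + t ^ 2) := hCS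
      _ ≤ 3 * (1 / 3) := mul_le_mul h h9 (by positivity) (by norm_num)
      _ = 1 := by norm_num
  nlinarith

theorem core (K : Set (Fin 3 → ℝ)) (hK : IsCompact K) (hc : Convex ℝ K)
    (hi : (interior K).Nonempty) (hs : ∀ x ∈ K, -x ∈ K) :
    ∃ p : Fin 3 → Fin 3 → ℝ, K ⊆ convexHull ℝ (Set.range p ∪ Set.range (fun i => -p i)) ∧
      2 * ∑ i, gauge K (p i) ≤ 13.92 := by
  obtain ⟨A, hA, hdet, hmax⟩ := design K hK hc hi hs
  obtain ⟨L, Li, n, w, y, hLLi, hLiL, hw, hw1, hy, hyK, hiso, hin⟩ :=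
    position_of_design K A hA hdet hmax
  obtain ⟨i, hii⟩ := kappa w y hw hw1 hy hiso
  have h3 : 0 < √3 := Real.sqrt_pos.2 (by norm_num)
  have h6 : 0 < √6 := Real.sqrt_pos.2 (by norm_num)
  have h33 : √3 * √3 = 3 := Real.mul_self_sqrt (by norm_num)
  set e : Fin 3 → ℝ := (1 / √3) • y i with he
  have hyi : √3 • e = y i := by
    rw [he, smul_smul, mul_one_div_cancel h3.ne', one_smul]
  have ee : e ⬝ᵥ e = 1 := by
    rw [he, smul_dotProduct, dotProduct_smul, hy i, smul_eq_mul, smul_eq_mul]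
    field_simp
    nlinarith
  obtain ⟨f, g, ff, gg, ef, eg, fg⟩ := completion e ee
  obtain ⟨θ, hθ⟩ := planar w (fun j => y j ⬝ᵥ f) (fun j => y j ⬝ᵥ g) hw
  set f' : Fin 3 → ℝ := Real.cos θ • f + Real.sin θ • g with hf'
  set g' : Fin 3 → ℝ := (-Real.sin θ) • f + Real.cos θ • g with hg'
  have gf : g ⬝ᵥ f = 0 := by rw [dotProduct_comm]; exact fg
  have hcs := Real.sin_sq_add_cos_sq θ
  have ff' : f' ⬝ᵥ f' = 1 := by
    simp only [hf', add_dotProduct, dotProduct_add, smul_dotProduct, dotProduct_smul, ff, gg, fg, gf,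
      smul_eq_mul]
    nlinarith
  have gg' : g' ⬝ᵥ g' = 1 := by
    simp only [hg', add_dotProduct, dotProduct_add, smul_dotProduct, dotProduct_smul, ff, gg, fg, gf,
      smul_eq_mul]
    nlinarith
  have ef' : e ⬝ᵥ f' = 0 := by
    simp only [hf', dotProduct_add, dotProduct_smul, ef, eg, smul_eq_mul]
    ring
  have eg' : e ⬝ᵥ g' = 0 := by
    simp only [hg', dotProduct_add, dotProduct_smul, ef, eg, smul_eq_mul]
    ring
  have fg' : f' ⬝ᵥ g' = 0 := by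
    simp only [hf', hg', add_dotProduct, dotProduct_add, smul_dotProduct, dotProduct_smul, ff, gg,
      fg, gf, smul_eq_mul]
    ring
  have yf : ∀ j, y j ⬝ᵥ f' = (y j ⬝ᵥ f) * Real.cos θ + (y j ⬝ᵥ g) * Real.sin θ := by
    intro j
    simp only [hf', dotProduct_add, dotProduct_smul, smul_eq_mul]
    ring
  have yg : ∀ j, y j ⬝ᵥ g' = -(y j ⬝ᵥ f) * Real.sin θ + (y j ⬝ᵥ g) * Real.cos θ := by
    intro j
    simp only [hg', dotProduct_add, dotProduct_smul, smul_eq_mul]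
    ring
  have hsq : ∀ j, (y j ⬝ᵥ f) ^ 2 + (y j ⬝ᵥ g) ^ 2 = 3 - (y i ⬝ᵥ y j) ^ 2 / 3 := by
    intro j
    have h := norm3 e f g ee ff gg ef eg fg (y j)
    rw [hy j] at h
    have h2 : (y j ⬝ᵥ e) ^ 2 = (y i ⬝ᵥ y j) ^ 2 / 3 := by
      rw [he, dotProduct_smul, smul_eq_mul, mul_pow, dotProduct_comm (y j) (y i), div_pow,
        Real.sq_sqrt (by norm_num)]
      ring
    linarith
  -- the gauge bounds
  have hLu : ∀ u : Fin 3 → ℝ, gauge K (L *ᵥ u) ≤ ∑ j, w j * |y j ⬝ᵥ u| := by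
    intro u
    have h1 : L *ᵥ u = ∑ j, (w j * (y j ⬝ᵥ u)) • (L *ᵥ (y j)) := by
      conv_lhs => rw [iso_expand w y hiso u]
      rw [Matrix.mulVec_sum]
      exact Finset.sum_congr rfl fun j _ => by rw [Matrix.mulVec_smul]
    rw [h1]
    refine (gauge_comb hc hi hs _ _ hyK).trans (le_of_eq ?_)
    exact Finset.sum_congr rfl fun j _ => by rw [abs_mul, abs_of_nonneg (hw j)]
  let p : Fin 3 → Fin 3 → ℝ := ![(19 / 10 * √3) • (L *ᵥ e), (11761 / 10000 * √6) • (L *ᵥ f'),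
    (11761 / 10000 * √6) • (L *ᵥ g')]
  refine ⟨p, ?_, ?_⟩
  · intro x hx
    set ξ := Li *ᵥ x with hξ
    have hξ3 : ξ ⬝ᵥ ξ ≤ 3 := hin x hx
    have hxL : x = L *ᵥ ξ := by rw [hξ, Matrix.mulVec_mulVec, hLLi, Matrix.one_mulVec]
    have hn := norm3 e f' g' ee ff' gg' ef' eg' fg' ξ
    have hx2 := complete3 e f' g' ee ff' gg' ef' eg' fg' ξ
    have hcov := cover_num (ξ ⬝ᵥ e) (ξ ⬝ᵥ f') (ξ ⬝ᵥ g') (by rw [← hn]; exact hξ3)
    have hm := mem_hull p ![(ξ ⬝ᵥ e) / (19 / 10 * √3), (ξ ⬝ᵥ f') / (11761 / 10000 * √6),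
      (ξ ⬝ᵥ g') / (11761 / 10000 * √6)] (by
        rw [Fin.sum_univ_three]
        simpa using hcov)
    have hx3 : x = ∑ k, (![(ξ ⬝ᵥ e) / (19 / 10 * √3), (ξ ⬝ᵥ f') / (11761 / 10000 * √6),
      (ξ ⬝ᵥ g') / (11761 / 10000 * √6)] : Fin 3 → ℝ) k • p k := by
      rw [Fin.sum_univ_three]
      simp only [p, Matrix.cons_val_zero, Matrix.cons_val_one, Matrix.cons_val]
      rw [smul_smul, smul_smul, smul_smul, div_mul_cancel₀ _ (by positivity),
        div_mul_cancel₀ _ (by positivity), div_mul_cancel₀ _ (by positivity)]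
      rw [← Matrix.mulVec_smul, ← Matrix.mulVec_smul, ← Matrix.mulVec_smul, ← Matrix.mulVec_add,
        ← Matrix.mulVec_add, ← hx2]
      exact hxL
    rw [hx3]
    exact hm
  · have g0 : gauge K (p 0) ≤ 19 / 10 := by
      have : p 0 = (19 / 10 : ℝ) • (L *ᵥ y i) := by
        show (19 / 10 * √3) • (L *ᵥ e) = _
        rw [← smul_smul, ← Matrix.mulVec_smul, hyi]
      rw [this, gauge_smul_of_nonneg (by norm_num), smul_eq_mul]
      have := gauge_le_one_of_mem (hyK i)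
      linarith
    have g1 : gauge K (p 1) ≤ (11761 / 10000 * √6) * ∑ j, w j * |y j ⬝ᵥ f'| := by
      have : p 1 = (11761 / 10000 * √6) • (L *ᵥ f') := by
        simp only [p, Matrix.cons_val_one]
        rfl
      rw [this, gauge_smul_of_nonneg (by positivity), smul_eq_mul]
      exact mul_le_mul_of_nonneg_left (hLu f') (by positivity)
    have g2 : gauge K (p 2) ≤ (11761 / 10000 * √6) * ∑ j, w j * |y j ⬝ᵥ g'| := by
      have : p 2 = (11761 / 10000 * √6) • (L *ᵥ g') := by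
        simp only [p]
        rfl
      rw [this, gauge_smul_of_nonneg (by positivity), smul_eq_mul]
      exact mul_le_mul_of_nonneg_left (hLu g') (by positivity)
    have hsum : ∑ j, w j * |y j ⬝ᵥ f'| + ∑ j, w j * |y j ⬝ᵥ g'| ≤
        (4 / Real.pi) * (√3 * (1 - (434 / 1000) / 3 - (2965 / 10000) / 5)) := by
      rw [← Finset.sum_add_distrib]
      have e1 : ∑ j, (w j * |y j ⬝ᵥ f'| + w j * |y j ⬝ᵥ g'|) =
          ∑ j, w j * (|(y j ⬝ᵥ f) * Real.cos θ + (y j ⬝ᵥ g) * Real.sin θ| +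
            |-(y j ⬝ᵥ f) * Real.sin θ + (y j ⬝ᵥ g) * Real.cos θ|) :=
        Finset.sum_congr rfl fun j _ => by rw [yf, yg]; ring
      rw [e1]
      refine hθ.trans (mul_le_mul_of_nonneg_left ?_ (by positivity))
      refine le_trans (le_of_eq ?_) hii
      exact Finset.sum_congr rfl fun j _ => by rw [hsq]
    rw [Fin.sum_univ_three]
    refine le_trans ?_ numeric
    have h7 : (11761 / 10000 * √6) * (∑ j, w j * |y j ⬝ᵥ f'| + ∑ j, w j * |y j ⬝ᵥ g'|) ≤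
      (11761 / 10000 * √6) * ((4 / Real.pi) * (√3 * (1 - (434 / 1000) / 3 - (2965 / 10000) / 5))) :=
      mul_le_mul_of_nonneg_left hsum (by positivity)
    rw [mul_add] at h7
    linarith

end VI
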